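import Pool.Agent.H25.IACR.Torus

/-!
# Independent algebraic crossing number zero does not imply embeddability, for any genus `≥ 4`

For every `g ≥ 4` there is a finite simple graph with a drawing on the closed orientable surface
`M_g` of genus `g` in which every pair of independent edges crosses equally often from the left and
from the right, and which has no drawing without crossings on `M_g`.

For `g = 4` the graph is `K` (ten nested 17-gons, joined by radial edges, and five further
vertices joined to the outermost 17-gon). The step from `g` to `g + 1` adds a disjoint complete
graph with seven vertices: it is drawn without crossings on a torus, and it needs a handle of its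
own, as the Euler genus is additive over disjoint unions.
-/

namespace Pool.Agent.Results.MP_300f0e_co.EveryGenusFromFour

open Pool.Agent.H60.IACR Pool.Agent.H25.IACR

theorem result : ∀ g : ℕ, 4 ≤ g → ∃ (V : Type) (_ : Fintype V) (G : SimpleGraph V),
    IacrZero g G ∧ ¬ CrZero g G := by
  intro g hg
  induction g, hg using Nat.le_induction with
  | base => exact ⟨Vt, inferInstance, K, iacrZero, not_crZero⟩
  | succ g hg ih =>
    obtain ⟨V, hV, G, ⟨D, hD, hab⟩, hn⟩ := ih
    refine ⟨V ⊕ Fin 7, inferInstance, G ⊕g K7, ⟨sumDrawing D torus, ?_, ?_⟩, ?_⟩
    · unfold Drawing.OnSurface at hD ⊢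
      have h1 := eulerGenus_sumDrawing D torus
      have h2 := torus_onSurface
      push_cast
      linarith
    · exact algZero_sum D torus hab (fun a b _ => torus_algZero a b)
    · rintro ⟨E, hE, h0⟩
      obtain ⟨E1, E2, h1, h2, h3⟩ := restrict E h0
      refine hn ⟨E1, ?_, h1⟩
      have h4 := K7_lower E2 h2
      unfold Drawing.OnSurface at hE ⊢
      push_cast at hE
      linarith

end Pool.Agent.Results.MP_300f0e_co.EveryGenusFromFour
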